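import Pool.Agent.Helper51.AJ.St
import Pool.Agent.Helper51.AJ.Basic

/-!
# Project AJ (MP_d63854_co): module K4C
-/

set_option autoImplicit false

namespace Pool.Agent.Helper84.AJ

open Pool.Agent.Helper51.AJ

variable {V : Type} {B : SimpleGraph V}

private theorem gr5_of {L : List (ℕ × ℕ)} (F : Fin 5 → Set V) (hc : ∀ i, Con B (F i))
    (hd : ∀ i j, i ≠ j → Disjoint (F i) (F j)) (σ : Fin 5 → Fin 5) (hσ : Function.Injective σ)
    (hadj : ∀ p ∈ L, ∀ (h1 : p.1 < 5) (h2 : p.2 < 5), Tch B (F (σ ⟨p.1, h1⟩)) (F (σ ⟨p.2, h2⟩))) :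
    IsMinor (gr 5 L) B :=
  isMinor_gr (fun i => F (σ i)) (fun _ => hc _) (fun _ _ hij => hd _ _ (hσ.ne hij.ne)) hadj

private theorem x1_of (F : Fin 5 → Set V) (hc : ∀ i, Con B (F i))
    (hd : ∀ i j, i ≠ j → Disjoint (F i) (F j)) (σ : Fin 5 → Fin 5) (hσ : Function.Injective σ)
    (h01 : Tch B (F (σ 0)) (F (σ 1))) (h02 : Tch B (F (σ 0)) (F (σ 2))) (h03 : Tch B (F (σ 0)) (F (σ 3)))
    (h12 : Tch B (F (σ 1)) (F (σ 2))) (h13 : Tch B (F (σ 1)) (F (σ 3))) (h23 : Tch B (F (σ 2)) (F (σ 3))) :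
    IsMinor X1 B := by
  refine gr5_of F hc hd σ hσ ?_
  intro p hp h1 h2
  simp only [List.mem_cons, List.not_mem_nil, or_false] at hp
  rcases hp with rfl | rfl | rfl | rfl | rfl | rfl <;> assumption

private theorem k23_of (F : Fin 5 → Set V) (hc : ∀ i, Con B (F i))
    (hd : ∀ i j, i ≠ j → Disjoint (F i) (F j)) (σ : Fin 5 → Fin 5) (hσ : Function.Injective σ)
    (h02 : Tch B (F (σ 0)) (F (σ 2))) (h03 : Tch B (F (σ 0)) (F (σ 3))) (h04 : Tch B (F (σ 0)) (F (σ 4)))
    (h12 : Tch B (F (σ 1)) (F (σ 2))) (h13 : Tch B (F (σ 1)) (F (σ 3))) (h14 : Tch B (F (σ 1)) (F (σ 4))) :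
    IsMinor K23 B := by
  refine gr5_of F hc hd σ hσ ?_
  intro p hp h1 h2
  simp only [List.mem_cons, List.not_mem_nil, or_false] at hp
  rcases hp with rfl | rfl | rfl | rfl | rfl | rfl <;> assumption

/-- the combinatorial core -/
private theorem core (F : Fin 5 → Set V) (hc : ∀ i, Con B (F i))
    (hd : ∀ i j, i ≠ j → Disjoint (F i) (F j)) (n1 : ¬ IsMinor K23 B) (n2 : ¬ IsMinor X1 B)
    (h01 : Tch B (F 0) (F 1)) (h23 : Tch B (F 2) (F 3)) (h24 : Tch B (F 2) (F 4)) (h34 : Tch B (F 3) (F 4))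
    (a2 : Tch B (F 0) (F 2) ∨ Tch B (F 1) (F 2)) (a3 : Tch B (F 0) (F 3) ∨ Tch B (F 1) (F 3))
    (a4 : Tch B (F 0) (F 4) ∨ Tch B (F 1) (F 4)) : False := by
  have s : ∀ {i j : Fin 5}, Tch B (F i) (F j) → Tch B (F j) (F i) := fun h => tch_symm h
  by_cases b2 : Tch B (F 0) (F 2) <;> by_cases b3 : Tch B (F 0) (F 3) <;> by_cases b4 : Tch B (F 0) (F 4)
  · exact n2 (x1_of F hc hd ![0, 2, 3, 4, 1] (by decide) b2 b3 b4 h23 h24 h34)
  · have c4 := a4.resolve_left b4
    exact n1 (k23_of F hc hd ![0, 4, 2, 3, 1] (by decide) b2 b3 h01 (s h24) (s h34) (s c4))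
  · have c3 := a3.resolve_left b3
    exact n1 (k23_of F hc hd ![0, 3, 2, 4, 1] (by decide) b2 b4 h01 (s h23) h34 (s c3))
  · have c3 := a3.resolve_left b3
    have c4 := a4.resolve_left b4
    exact n1 (k23_of F hc hd ![1, 2, 0, 3, 4] (by decide) (s h01) c3 c4 (s b2) h23 h24)
  · have c2 := a2.resolve_left b2
    exact n1 (k23_of F hc hd ![0, 2, 3, 4, 1] (by decide) b3 b4 h01 h23 h24 (s c2))
  · have c2 := a2.resolve_left b2
    have c4 := a4.resolve_left b4
    exact n1 (k23_of F hc hd ![1, 3, 0, 2, 4] (by decide) (s h01) c2 c4 (s b3) (s h23) h34)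
  · have c2 := a2.resolve_left b2
    have c3 := a3.resolve_left b3
    exact n1 (k23_of F hc hd ![1, 4, 0, 2, 3] (by decide) (s h01) c2 c3 (s b4) (s h24) (s h34))
  · have c2 := a2.resolve_left b2
    have c3 := a3.resolve_left b3
    have c4 := a4.resolve_left b4
    exact n2 (x1_of F hc hd ![1, 2, 3, 4, 0] (by decide) c2 c3 c4 h23 h24 h34)

private theorem five_dis {A C : Set V} (T : Fin 4 → Set V) (hd : ∀ i j, i ≠ j → Disjoint (T i) (T j))
    (hAC : Disjoint A C) (hA : ∀ i, i ≠ 0 → Disjoint A (T i)) (hC : ∀ i, i ≠ 0 → Disjoint C (T i)) :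
    ∀ i j, i ≠ j → Disjoint ((![A, C, T 1, T 2, T 3] : Fin 5 → Set V) i) ((![A, C, T 1, T 2, T 3] : Fin 5 → Set V) j) := by
  intro i j hij
  fin_cases i <;> fin_cases j <;> first
    | exact absurd rfl hij
    | exact hAC
    | exact hAC.symm
    | exact hA _ (by decide)
    | exact (hA _ (by decide)).symm
    | exact hC _ (by decide)
    | exact (hC _ (by decide)).symm
    | exact hd _ _ (by decide)

private theorem five_con {A C : Set V} (T : Fin 4 → Set V) (hc : ∀ i, Con B (T i)) (hA : Con B A) (hC : Con B C) :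
    ∀ i, Con B ((![A, C, T 1, T 2, T 3] : Fin 5 → Set V) i) := by
  intro i
  fin_cases i
  · exact hA
  · exact hC
  · exact hc 1
  · exact hc 2
  · exact hc 3

private theorem zero_single [Finite V] (h1 : StCon) (T : Fin 4 → Set V) (hc : ∀ i, Con B (T i))
    (hd : ∀ i j, i ≠ j → Disjoint (T i) (T j)) (ht : ∀ i j, i ≠ j → Tch B (T i) (T j))
    (n1 : ¬ IsMinor K23 B) (n2 : ¬ IsMinor X1 B) : ∃ y, T 0 = {y} := by
  obtain ⟨y, hy⟩ := con_nonempty (hc 0)
  refine ⟨y, ?_⟩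
  by_contra hne
  obtain ⟨g1, g2, -⟩ := h1 V B (T 0) (hc 0)
  obtain ⟨x, hx, hxy, hcx⟩ := g2 y hy hne
  have hxs : ({x} : Set V) ⊆ T 0 := Set.singleton_subset_iff.2 hx
  have hx2 := g1 {x} hxs (Set.singleton_nonempty x) (fun h => by
    rw [← h] at hy
    exact hxy (Set.mem_singleton_iff.1 hy).symm)
  have htt : ∀ j, j ≠ 0 → Tch B (T 0 \ {x}) (T j) ∨ Tch B {x} (T j) := by
    intro j hj
    obtain ⟨a, ha, b, hb, hab⟩ := ht 0 j hj.symm
    by_cases hax : a = x
    · exact Or.inr ⟨a, hax, b, hb, hab⟩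
    · exact Or.inl ⟨a, ⟨ha, hax⟩, b, hb, hab⟩
  refine core ![T 0 \ {x}, {x}, T 1, T 2, T 3] (five_con T hc hcx (con_singleton B x))
    (five_dis T hd Set.disjoint_sdiff_left ?_ ?_) n1 n2 (tch_symm hx2) (ht 1 2 (by decide)) (ht 1 3 (by decide))
    (ht 2 3 (by decide)) (htt 1 (by decide)) (htt 2 (by decide)) (htt 3 (by decide))
  · intro i hi
    exact (hd 0 i hi.symm).mono_left Set.sdiff_subset
  · intro i hi
    exact (hd 0 i hi.symm).mono_left hxs

theorem hK4C (h1 : StCon) : StK4c := by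
  intro V _ B hK n1 n2
  obtain ⟨T, hc, hd, ht0⟩ := isMinor_gr' hK
  have ht : ∀ i j, i ≠ j → Tch B (T i) (T j) := by
    intro i j hij
    fin_cases i <;> fin_cases j <;> first
      | exact absurd rfl hij
      | exact ht0 _ _ hij (by decide)
      | exact tch_symm (ht0 _ _ hij.symm (by decide))
  -- all branch sets are single vertices
  have hs : ∀ i, ∃ y, T i = {y} := by
    intro i
    have h := zero_single h1 (fun j => T (Equiv.swap 0 i j)) (fun j => hc _)
      (fun a b hab => hd _ _ ((Equiv.swap 0 i).injective.ne hab))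
      (fun a b hab => ht _ _ ((Equiv.swap 0 i).injective.ne hab)) n1 n2
    simpa using h
  choose t hts using hs
  -- they cover `V`
  have hcov : ∀ z, ∃ i, t i = z := by
    intro z
    by_contra hz
    push Not at hz
    have hz' : ∀ i, Disjoint (T i) {z} := by
      intro i
      rw [hts i]
      exact Set.disjoint_singleton.2 (hz i)
    exact n2 (x1_of ![T 0, {z}, T 1, T 2, T 3] (five_con T hc (hc 0) (con_singleton B z))
      (five_dis T hd (hz' 0) (fun i hi => hd 0 i hi.symm) (fun i _ => (hz' i).symm)) ![0, 2, 3, 4, 1] (by decide)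
      (ht 0 1 (by decide)) (ht 0 2 (by decide)) (ht 0 3 (by decide)) (ht 1 2 (by decide)) (ht 1 3 (by decide))
      (ht 2 3 (by decide)))
  have hadj : ∀ a b : V, a ≠ b → B.Adj a b := by
    intro a b hab
    obtain ⟨i, rfl⟩ := hcov a
    obtain ⟨j, rfl⟩ := hcov b
    have hij : i ≠ j := fun h => hab (by rw [h])
    obtain ⟨x, hx, y, hy, hxy⟩ := ht i j hij
    rw [hts i] at hx
    rw [hts j] at hy
    rw [Set.mem_singleton_iff] at hx hy
    rw [← hx, ← hy]
    exact hxy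
  have hinj : t 1 ≠ t 0 := by
    intro h
    have := hd 1 0 (by decide)
    rw [hts 1, hts 0] at this
    exact Set.disjoint_singleton.1 this h
  refine ⟨t 0, ?_, ?_⟩
  · have hne : Nonempty ↑({t 0}ᶜ : Set V) := ⟨⟨t 1, hinj⟩⟩
    refine ⟨fun a b => ?_⟩
    by_cases hab : a = b
    · rw [hab]
    · have h2 : (B.induce ({t 0}ᶜ : Set V)).Adj a b := hadj a.1 b.1 fun h => hab (Subtype.ext h)
      exact h2.reachable
  · intro v
    have e1 : (({t 0} : Set V)).ncard + (({t 0} : Set V)ᶜ).ncard = Nat.card V :=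
      Set.ncard_add_ncard_compl _ (Set.toFinite _) (Set.toFinite _)
    have e2 : ({v} : Set ↑({t 0}ᶜ : Set V)).ncard + (({v} : Set ↑({t 0}ᶜ : Set V))ᶜ).ncard =
        Nat.card ↑({t 0}ᶜ : Set V) :=
      Set.ncard_add_ncard_compl _ (Set.toFinite _) (Set.toFinite _)
    have e3 : Nat.card V ≤ 4 := by
      have := Nat.card_le_card_of_surjective t hcov
      simpa using this
    have e4 : ((B.induce ({t 0}ᶜ : Set V)).neighborSet v).ncard ≤ (({v} : Set ↑({t 0}ᶜ : Set V))ᶜ).ncard := by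
      refine Set.ncard_le_ncard ?_ (Set.toFinite _)
      intro z hz hzv
      rw [Set.mem_singleton_iff] at hzv
      rw [hzv] at hz
      exact (B.induce ({t 0}ᶜ : Set V)).loopless.irrefl v hz
    rw [Set.ncard_singleton] at e1 e2
    rw [Nat.card_coe_set_eq] at e2
    omega

end Pool.Agent.Helper84.AJ
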